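import Pool.Agent.X119.Cong

/-!
# The congruence (b) of Q1 fails for `p = 11, 17, 19, 41, 43`
-/

set_option autoImplicit false

namespace Pool.Agent.Results.MP_025f5d_nt.FailsAsStated

open Finset Pool.Agent.X119.Cong

/-- The Pell numbers. -/
def pell : ℕ → ℤ
  | 0 => 0
  | 1 => 1
  | n + 2 => 2 * pell (n + 1) + pell n

/-- `S_1(p)` -/
def S1 (p : ℕ) : ℚ := ∑ k ∈ range p, (pell k : ℚ) / (-8) ^ k * ((2 * k).choose k : ℚ) ^ 2

/-- `S_2(p)` -/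
def S2 (p : ℕ) : ℚ := ∑ k ∈ range p, (k : ℚ) * (pell k : ℚ) / (-8) ^ k * ((2 * k).choose k : ℚ) ^ 2

/-- the right-hand side of (a) -/
def Ra (p : ℕ) (x : ℤ) : ℚ := if p % 8 = 1 then 0 else (-1) ^ ((p - 3) / 8) * (p / (2 * x) - 2 * x)

/-- the right-hand side of (b) -/
def Rb (p : ℕ) (x : ℤ) : ℚ := (-1 : ℚ) ^ ((x + 1) / 2) / 2 * (x + p / (2 * x))

/-- pairs of successive Pell numbers, for computations -/
def pp : ℕ → ℤ × ℤ
  | 0 => (0, 1)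
  | n + 1 => match pp n with
    | (a, b) => (b, 2 * b + a)

theorem pp_eq (n : ℕ) : pp n = (pell n, pell (n + 1)) := by
  induction n with
  | zero => rfl
  | succ n ih => rw [pp, ih, pell]

/-- a form of `S_2` for computations -/
def S2' (p : ℕ) : ℚ := ∑ k ∈ range p, (k : ℚ) * ((pp k).1 : ℚ) / (-8) ^ k * (ch (2 * k) k : ℚ) ^ 2

theorem S2_eq (p : ℕ) : S2 p = S2' p := by
  unfold S2 S2'
  refine sum_congr rfl fun k _ => ?_
  rw [ch_eq, pp_eq]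

theorem fail11 : ¬ Cong 11 2 (S2 11) (Rb 11 3) := by
  rw [S2_eq]
  exact not_cong' (z := (3 + 11 / 6) / 2) (by rw [Rb]; norm_num) (by decide +kernel)

theorem fail17 : ¬ Cong 17 2 (S2 17) (Rb 17 3) := by
  rw [S2_eq]
  exact not_cong' (z := (3 + 17 / 6) / 2) (by rw [Rb]; norm_num) (by decide +kernel)

theorem fail19 : ¬ Cong 19 2 (S2 19) (Rb 19 1) := by
  rw [S2_eq]
  exact not_cong' (z := -(1 + 19 / 2) / 2) (by rw [Rb]; norm_num) (by decide +kernel)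

theorem fail41 : ¬ Cong 41 2 (S2 41) (Rb 41 3) := by
  rw [S2_eq]
  exact not_cong' (z := (3 + 41 / 6) / 2) (by rw [Rb]; norm_num) (by decide +kernel)

theorem fail43 : ¬ Cong 43 2 (S2 43) (Rb 43 (-5)) := by
  rw [S2_eq]
  exact not_cong' (z := (-5 - 43 / 10) / 2) (by rw [Rb]; norm_num) (by decide +kernel)

/-- The congruence (b) fails for `p = 11, 17, 19, 41, 43`, so that it is false that (a) and (b) hold for every prime
`p > 3`, `p ≡ 1, 3 (mod 8)`. -/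
theorem result :
    (¬ Cong 11 2 (S2 11) (Rb 11 3) ∧ ¬ Cong 17 2 (S2 17) (Rb 17 3) ∧ ¬ Cong 19 2 (S2 19) (Rb 19 1) ∧
      ¬ Cong 41 2 (S2 41) (Rb 41 3) ∧ ¬ Cong 43 2 (S2 43) (Rb 43 (-5))) ∧
    ¬ ∀ p : ℕ, p.Prime → 3 < p → (p % 8 = 1 ∨ p % 8 = 3) → ∀ x y : ℤ, (p : ℤ) = x ^ 2 + 2 * y ^ 2 →
      (x % 8 = 1 ∨ x % 8 = 3) → Cong p 2 (S1 p) (Ra p x) ∧ Cong p 2 (S2 p) (Rb p x) :=
  ⟨⟨fail11, fail17, fail19, fail41, fail43⟩, fun h => fail11
    (h 11 (by norm_num) (by norm_num) (by norm_num) 3 1 (by norm_num) (by norm_num)).2⟩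

end Pool.Agent.Results.MP_025f5d_nt.FailsAsStated
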