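import Pool.Agent.X149.PellSum.Lift

set_option autoImplicit false

namespace Pool.Agent.Results.MP_025f5d_nt.PellInert

open Finset Pool.Agent.X149.PellSum

/-- The Pell numbers. -/
def pell : ℕ → ℤ
  | 0 => 0
  | 1 => 1
  | (n+2) => 2 * pell (n+1) + pell n

/-- The sum `T(p)` of the problem. -/
def T (p : ℕ) : ℚ :=
  ∑ k ∈ range p, ((p-1).choose k : ℚ) * ((pell k : ℚ) / 8^k) * ((2*k).choose k : ℚ)^2

/-- The integer `8^(p-1) T(p)`. -/
def N (p : ℕ) : ℤ :=
  ∑ k ∈ range p, ((p-1).choose k : ℤ) * pell k * ((2*k).choose k : ℤ)^2 * 8^(p-1-k)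

lemma T_eq (p : ℕ) : T p = (N p : ℚ) / 8^(p-1) := by
  unfold T N
  push_cast
  rw [sum_div]
  apply sum_congr rfl
  intro k hk
  have hk' : k ≤ p-1 := by have := mem_range.mp hk; omega
  have e : (8:ℚ)^(p-1) = 8^k * 8^(p-1-k) := by rw [← pow_add]; congr 1; omega
  rw [e]
  field_simp

lemma pell_closed {R : Type*} [CommRing R] (s : R) (hs : s^2 = 2) (k : ℕ) :
    2 * s * (pell k : R) = (1+s)^k - (1-s)^k ∧
    2 * s * (pell (k+1) : R) = (1+s)^(k+1) - (1-s)^(k+1) := by
  induction k with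
  | zero => simp [pell]; ring
  | succ k ih =>
    refine ⟨ih.2, ?_⟩
    rw [show pell (k+1+1) = 2 * pell (k+1) + pell k from rfl]
    push_cast
    have h1 : (1+s)^(k+1+1) = (1+s)^k * (1+s)^2 := by ring
    have h2 : (1-s)^(k+1+1) = (1-s)^k * (1-s)^2 := by ring
    have h3 : (1+s)^(k+1) = (1+s)^k * (1+s) := by ring
    have h4 : (1-s)^(k+1) = (1-s)^k * (1-s) := by ring
    have i1 := ih.1
    have i2 := ih.2
    rw [h3, h4] at i2
    rw [h1, h2]
    linear_combination 2 * i2 + i1 - ((1+s)^k - (1-s)^k) * hs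

theorem N_zero (p : ℕ) [Fact p.Prime] (hp8 : p % 8 = 7) : ((N p : ℤ) : ZMod (p^2)) = 0 := by
  have hp : p.Prime := Fact.out
  obtain ⟨n, hn⟩ : ∃ n, 2*n+1 = p := ⟨p/2, by omega⟩
  have hn0 : 0 < n := by omega
  have hp2 : p ≠ 2 := by omega
  obtain ⟨s, hs⟩ := exists_sqrt_two hp8
  have hq : (2*(n:ZMod (p^2))+1) * (2*(n:ZMod (p^2))+1) = 0 := by
    have h := ZMod.natCast_self (p^2)
    rw [← hn] at h ⊢
    push_cast at h
    linear_combination h
  have h2 : IsUnit (2 : ZMod (p^2)) := by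
    have := isUnit_nat (p := p) 2 (by
      intro hd
      exact hp2 ((Nat.prime_dvd_prime_iff_eq hp Nat.prime_two).mp hd))
    exact_mod_cast this
  have hun : ∀ k, k < 2*n → IsUnit ((k:ZMod (p^2))+1) := by
    intro k hk
    have := isUnit_nat (p := p) (k+1) (Nat.not_dvd_of_pos_of_lt (by omega) (by omega))
    exact_mod_cast this
  have hcs := central_sq (R := ZMod (p^2)) n hq (2*n) hun
  have hG := G_rel (R := ZMod (p^2)) n hq h2 (fun k hk => hun k (by omega)) s hs
  -- `G` as a longer sum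
  have hlong : ∀ z : ZMod (p^2), G n z = ∑ k ∈ range p, ((2*n).choose k : ZMod (p^2)) *
      (n.choose k : ZMod (p^2)) * ((n+k).choose k : ZMod (p^2)) * z^k := by
    intro z
    unfold G
    apply sum_subset
    · intro x hx
      rw [mem_range] at hx ⊢
      omega
    · intro k _ hk
      rw [mem_range] at hk
      rw [Nat.choose_eq_zero_of_lt (by omega : n < k)]
      simp
  have key : 2 * s * ((N p : ℤ) : ZMod (p^2)) =
      8^(2*n) * (G n (-2*(1+s)) - G n (-2*(1-s))) := by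
    rw [hlong, hlong, ← sum_sub_distrib, mul_sum]
    unfold N
    push_cast
    rw [mul_sum]
    apply sum_congr rfl
    intro k hk
    have hk' : k ≤ 2*n := by have := mem_range.mp hk; omega
    have hp1 : p - 1 = 2*n := by omega
    rw [hp1]
    have e1 := (pell_closed s hs k).1
    have e2 := hcs k hk'
    have e3 : (8:ZMod (p^2))^(2*n) = 8^k * 8^(2*n-k) := by rw [← pow_add]; congr 1; omega
    have e4 : (-2*(1+s))^k = (-1)^k * 2^k * (1+s)^k := by
      rw [← mul_pow, ← mul_pow]; congr 1; ring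
    have e5 : (-2*(1-s))^k = (-1)^k * 2^k * (1-s)^k := by
      rw [← mul_pow, ← mul_pow]; congr 1; ring
    have e6 : (16:ZMod (p^2))^k = 8^k * 2^k := by rw [← mul_pow]; norm_num
    have e7 : ((-1 : ZMod (p^2)))^k * (-1)^k = 1 := by rw [← mul_pow]; simp
    rw [e3, e4, e5]
    rw [e6] at e2
    calc 2 * s * (((2*n).choose k : ZMod (p^2)) * (pell k : ZMod (p^2)) *
          ((2*k).choose k : ZMod (p^2))^2 * 8^(2*n-k))
        = ((2*n).choose k : ZMod (p^2)) * (2 * s * (pell k : ZMod (p^2))) *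
          ((-1)^k * ((-1)^k * ((2*k).choose k : ZMod (p^2))^2)) * 8^(2*n-k) := by
            linear_combination (-(2 * s * (((2*n).choose k : ZMod (p^2)) * (pell k : ZMod (p^2)) *
          ((2*k).choose k : ZMod (p^2))^2 * 8^(2*n-k)))) * e7
      _ = _ := by
            rw [e1, ← e2]
            ring
  have hz : ((1+s)^(2*n) - 1) * G n (-2*(1-s)) = 0 := by
    apply mul_eq_zero_of_red
    · have hσ : (1 + red p s) * (red p s - 1) = 1 := by
        have : (red p s)^2 = 2 := by rw [← map_pow, hs, map_ofNat]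
        linear_combination this
      have h1 : (1 + red p s) ≠ 0 := by
        intro h
        rw [h, zero_mul] at hσ
        exact zero_ne_one hσ
      rw [map_sub, map_pow, map_add, map_one, show 2*n = p-1 by omega,
        ZMod.pow_card_sub_one_eq_one h1, sub_self]
    · rw [red_G]
      have hσ : (red p s)^2 = 2 := by rw [← map_pow, hs, map_ofNat]
      have e : red p (-2*(1-s)) = -2*(1 - red p s) := by
        rw [map_mul, map_sub, map_one, map_neg, map_ofNat]
      rw [e]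
      apply G_zero n hn hn0 _ _ hσ
      rw [quadraticChar_neg_one_iff_not_isSquare, ZMod.exists_sq_eq_neg_two_iff hp2]
      omega
  have hfin : 2 * s * ((N p : ℤ) : ZMod (p^2)) = 0 := by
    rw [key, hG]
    linear_combination (8^(2*n)) * hz
  have h4 : (2:ZMod (p^2))^2 * ((N p : ℤ) : ZMod (p^2)) = 0 := by
    linear_combination s * hfin - (2 * ((N p : ℤ) : ZMod (p^2))) * hs
  exact (h2.pow 2).mul_left_cancel (by rw [h4, mul_zero])

/-- For every prime `p ≡ 7 (mod 8)` the number `T(p)` is `p^2` times a rational number whose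
denominator is prime to `p`. -/
theorem result : ∀ p : ℕ, p.Prime → p % 8 = 7 → ∃ r : ℚ, T p = (p:ℚ)^2 * r ∧ ¬ p ∣ r.den := by
  intro p hp hp8
  have : Fact p.Prime := ⟨hp⟩
  have h := N_zero p hp8
  rw [ZMod.intCast_zmod_eq_zero_iff_dvd] at h
  obtain ⟨c, hc⟩ := h
  refine ⟨(c:ℚ) / ((8^(p-1) : ℤ) : ℚ), ?_, ?_⟩
  · rw [T_eq, hc]
    push_cast
    ring
  · intro hd
    have h1 : (((c:ℚ) / ((8^(p-1) : ℤ) : ℚ)).den : ℤ) ∣ (8^(p-1) : ℤ) := by
      rw [← Rat.divInt_eq_div]
      exact Rat.den_dvd c (8^(p-1))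
    have h2 : (p:ℤ) ∣ (8^(p-1) : ℤ) := (Int.natCast_dvd_natCast.mpr hd).trans h1
    have h3 : p ∣ 8^(p-1) := by exact_mod_cast h2
    have h4 := hp.dvd_of_dvd_pow h3
    have h5 : p ∣ 2^3 := by norm_num; exact h4
    have h6 := (Nat.prime_dvd_prime_iff_eq hp Nat.prime_two).mp (hp.dvd_of_dvd_pow h5)
    omega

end Pool.Agent.Results.MP_025f5d_nt.PellInert
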